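import Pool.Agent.Helper58.TS.Eng.Core1
import Pool.Agent.Helper44.NE.MixGrid
import Pool.Agent.Helper62.NE.RowCheck
import Pool.Agent.Helper30.NE.TallCheck

/-!
# `MixedI`: the blocks of a leaf from their checks
-/

set_option autoImplicit false

namespace Pool.Agent.Helper58.Eng

open Pool.Agent.Helper62.NE Pool.Agent.Helper95.TS Pool.Agent.Helper53.NE Pool.Agent.Helper90.TS
  Pool.Agent.Helper83.TS Pool.Agent.Helper56.NE Pool.Agent.Helper44.NE

/-- lower index of the slot `s` -/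
def bl (a : List Atom) (s : ℕ) : ℕ := loB s (nth 0 lo1 s) a

/-- upper index of the slot `s` -/
def bh (a : List Atom) (s : ℕ) : ℕ := hiB s (nth 0 hi1 s) a

section

variable {c : Cu} {a : List Atom}

theorem bl_ok (hb : Box1 c) (hs : Hs Sm1 c a) (s : ℕ) (h : s < 34) : ((bl a s : ℕ) : ℝ) - 20 ≤ s1 c s :=
  loB_ok (S := Sm1) hs (hb s h).1

theorem bh_ok (hb : Box1 c) (hs : Hs Sm1 c a) (s : ℕ) (h : s < 34) : s1 c s ≤ ((bh a s : ℕ) : ℝ) - 20 :=
  hiB_ok (S := Sm1) hs (hb s h).2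

end

/-! ### rows -/

/-- the check of a row with the slots `s0 .. s0 + 5` -/
def rowL (a : List Atom) (fl ll : List (ℕ × ℕ)) (M s0 : ℕ) : Bool :=
  rowOK M (bl a s0) (bh a s0) (bl a (s0 + 1)) (bh a (s0 + 1)) (bl a (s0 + 2)) (bh a (s0 + 2))
    (bl a (s0 + 3)) (bh a (s0 + 3)) (bl a (s0 + 4)) (bh a (s0 + 4)) (bl a (s0 + 5)) (bh a (s0 + 5))
    (Sy1.tl fl ll s0) (Sy1.tl fl ll (s0 + 1)) (Sy1.tl fl ll (s0 + 2)) (Sy1.tl fl ll (s0 + 3))
    (Sy1.tl fl ll (s0 + 4)) (Sy1.tl fl ll (s0 + 5))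

theorem row_of {c : Cu} (h : OkU1 c) {r j k l : Fin 4} (hr : r = 2 ∨ r = 3)
    (hn : [r, j, k, l].Nodup) {a : List Atom} {fl ll : List (ℕ × ℕ)} {M s0 : ℕ}
    (hc : rowL a fl ll M s0 = true) (hb : Box1 c) (hs : Hs Sm1 c a) (h0 : s0 + 5 < 34)
    (e0 : s1 c s0 = c.v r j) (e1 : s1 c (s0 + 1) = c.v r k) (e2 : s1 c (s0 + 2) = c.v r l)
    (e3 : s1 c (s0 + 3) = c.v r j + c.v r k) (e4 : s1 c (s0 + 4) = c.v r k + c.v r l)
    (e5 : s1 c (s0 + 5) = 20 - c.e r) :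
    96000 * c.VR r + (interp (ltab (Sy1.tl fl ll s0)) (c.v r j)
      + interp (ltab (Sy1.tl fl ll (s0 + 1))) (c.v r k)
      + interp (ltab (Sy1.tl fl ll (s0 + 2))) (c.v r l)
      + interp (ltab (Sy1.tl fl ll (s0 + 3))) (c.v r j + c.v r k)
      + interp (ltab (Sy1.tl fl ll (s0 + 4))) (c.v r k + c.v r l)
      + interp (ltab (Sy1.tl fl ll (s0 + 5))) (20 - c.e r)) ≤ ((M : ℝ) - 4194304) + 94 := by
  have n : j ≠ r ∧ k ≠ r ∧ l ≠ r := by
    clear * - hn; revert hn; revert r j k l; decide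
  have g := Pool.Agent.Helper59.TS.val_of_cu (h.gr r j k l hr hn)
  have er := h.e0 r hr
  have vs := h.vs r j k l hr hn
  have h1 := h.hi r j hr n.1
  have h2 := h.hi r k hr n.2.1
  have h3 := h.hi r l hr n.2.2
  have es : c.v r j + c.v r k + c.v r l = 20 - c.e r := vs
  have k := row_block hc (v1 := c.v r j) (v2 := c.v r k) (v3 := c.v r l)
    (by rw [← e0]; exact bl_ok hb hs _ (by omega)) (by rw [← e0]; exact bh_ok hb hs _ (by omega))
    (by rw [← e1]; exact bl_ok hb hs _ (by omega)) (by rw [← e1]; exact bh_ok hb hs _ (by omega))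
    (by rw [← e2]; exact bl_ok hb hs _ (by omega)) (by rw [← e2]; exact bh_ok hb hs _ (by omega))
    (by rw [← e3]; exact bl_ok hb hs _ (by omega)) (by rw [← e3]; exact bh_ok hb hs _ (by omega))
    (by rw [← e4]; exact bl_ok hb hs _ (by omega)) (by rw [← e4]; exact bh_ok hb hs _ (by omega))
    (by rw [es, ← e5]; exact bl_ok hb hs _ (by omega))
    (by rw [es, ← e5]; exact bh_ok hb hs _ (by omega))
    (by linarith) (by linarith) (by linarith) (by linarith) (by linarith) (by linarith)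
    (by linarith)
  rw [es] at k
  linarith

/-! ### the tall class -/

theorem getD_nth : ∀ (l : List ℕ) (i : ℕ), l.getD i 0 = nth 0 l i
  | [], i => by
    rw [nth_nil]
    rfl
  | _ :: _, 0 => rfl
  | _ :: l, i + 1 => by
    rw [nth_succ, ← getD_nth l i]
    rfl

theorem tab_ltab (l : List ℕ) : (fun n : ℤ => ((Pool.Agent.Helper30.NE.tab l n : ℤ) : ℝ)) = ltab l := by
  funext n
  unfold Pool.Agent.Helper30.NE.tab ltab
  rw [getD_nth]
  push_cast
  ring

/-- the index as an integer -/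
def zi (i : ℕ) : ℤ := Int.sub (Int.ofNat i) 20

theorem zi_real (i : ℕ) : ((zi i : ℤ) : ℝ) = (i : ℝ) - 20 := by
  show (((i : ℤ) - 20 : ℤ) : ℝ) = (i : ℝ) - 20
  push_cast
  ring

/-- the check of the tall class -/
noncomputable def tallL (a : List Atom) (fl ll : List (ℕ × ℕ)) (M : ℕ) : Bool :=
  Pool.Agent.Helper30.NE.tallChk (Sy1.tl fl ll 28) (Sy1.tl fl ll 30) (Sy1.tl fl ll 29)
    (Sy1.tl fl ll 31) (Sy1.tl fl ll 32) (Sy1.tl fl ll 33) M (zi (bl a 28)) (zi (bh a 28))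
    (zi (bl a 30)) (zi (bh a 30)) (zi (bl a 29)) (zi (bh a 29)) (zi (bl a 31)) (zi (bh a 31))
    (zi (bl a 32)) (zi (bh a 32)) (zi (bl a 33)) (zi (bh a 33))

theorem tall_of {c : Cu} (h : OkU1 c) {a : List Atom} {fl ll : List (ℕ × ℕ)} {M : ℕ}
    (hc : tallL a fl ll M = true) (hb : Box1 c) (hs : Hs Sm1 c a) :
    96000 * c.mf 1 + (interp (ltab (Sy1.tl fl ll 28)) (c.v 1 0)
      + interp (ltab (Sy1.tl fl ll 30)) (c.v 1 2) + interp (ltab (Sy1.tl fl ll 29)) (c.v 1 3)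
      + interp (ltab (Sy1.tl fl ll 31)) (c.v 1 0 + c.v 1 2)
      + interp (ltab (Sy1.tl fl ll 32)) (c.v 1 3 + c.v 1 2)
      + interp (ltab (Sy1.tl fl ll 33)) (20 - c.e 1)) ≤ ((M : ℝ) - 25165824) + 69 := by
  have e0 := h.te
  have eu := h.tu
  have ex := h.tx
  have ew := h.tw
  have ez := h.tz
  have eb := h.tb
  have hr : Pool.Agent.Helper30.NE.TallRound 69 (c.v 1 0) (c.v 1 2) (c.v 1 3) :=
    Pool.Agent.Helper95.TS.RM_round_213 (v1 := c.v 1 2) (v2 := c.v 1 0) (v3 := c.v 1 3)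
      (by linarith [ew.1, ew.2.1]) (by linarith [e0.1]) (by linarith) (by linarith [ex.1])
      (by linarith [ex.2])
  have es : c.v 1 0 + c.v 1 2 + c.v 1 3 = s1 c 33 := eu
  have L := fun s hs' => bl_ok (c := c) (a := a) hb hs s hs'
  have U := fun s hs' => bh_ok (c := c) (a := a) hb hs s hs'
  have k := Pool.Agent.Helper30.NE.tall_block hc hr
    (by rw [zi_real]; exact L 28 (by norm_num)) (by rw [zi_real]; exact U 28 (by norm_num))
    (by rw [zi_real]; exact L 30 (by norm_num)) (by rw [zi_real]; exact U 30 (by norm_num))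
    (by rw [zi_real]; exact L 29 (by norm_num)) (by rw [zi_real]; exact U 29 (by norm_num))
    (by rw [zi_real]; exact L 31 (by norm_num)) (by rw [zi_real]; exact U 31 (by norm_num))
    (by rw [zi_real, add_comm]; exact L 32 (by norm_num))
    (by rw [zi_real, add_comm]; exact U 32 (by norm_num))
    (by rw [zi_real, es]; exact L 33 (by norm_num)) (by rw [zi_real, es]; exact U 33 (by norm_num))
    (by linarith [ex.1]) (by linarith [ex.2]) (by linarith [e0.2, eb.1]) (by linarith [e0.2, eb.2])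
    (by linarith [ew.2.2]) (by linarith [ew.1, ew.2.1]) (by linarith [e0.2]) (by linarith [e0.1])
  simp only [tab_ltab] at k
  rw [es, add_comm (c.v 1 2) (c.v 1 3)] at k
  rw [h.tm]
  exact k

/-! ### single cells -/

theorem dom_pkl {l : List ℕ} (h : small l = true) : Dom (ltab l) fun i => lk (pkl l) i := by
  intro i _
  show ltab l ((i : ℤ) - 20) ≤ ((lk (pkl l) i : ℕ) : ℝ) - 4194304
  unfold ltab
  rw [show (((i : ℤ) - 20) + 20).toNat = i by omega, lk_pkl h]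

/-- the check of a single cell; `ab`: the cell may be absent -/
def cellL (ab : Bool) (w0 w1 : ℕ) (t0 t1 t2 t3 : List ℕ) (B M : ℕ) : Bool :=
  small t0 && small t1 && small t2 && small t3 &&
  Helper62.NE.frc (fun p0 => Helper62.NE.frc (fun p1 => Helper62.NE.frc (fun p2 => Helper62.NE.frc (fun p3 =>
    oneOK ab w0 w1 (fun i => lk p0 i) (fun i => lk p1 i) (fun i => lk p2 i) (fun i => lk p3 i) B M)
    (pkl t3)) (pkl t2)) (pkl t1)) (pkl t0)

theorem cellL_ok {ab : Bool} {w0 w1 : ℕ} {t0 t1 t2 t3 : List ℕ} {B M : ℕ}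
    (h : cellL ab w0 w1 t0 t1 t2 t3 B M = true) :
    OneBd ab w0 w1 ⟨ltab t0, ltab t1, ltab t2, ltab t3⟩ B ((M : ℝ) - 16777216) := by
  unfold cellL at h
  simp only [Bool.and_eq_true, Helper62.NE.frc_eq] at h
  obtain ⟨⟨⟨⟨h0, h1⟩, h2⟩, h3⟩, h4⟩ := h
  exact oneOK_ok h4 (dom_pkl h0) (dom_pkl h1) (dom_pkl h2) (dom_pkl h3)

/-- the check of the cell `(1; 2)` -/
def farL (a : List Atom) (fl ll : List (ℕ × ℕ)) (M : ℕ) : Bool :=
  cellL false (bl a 24 - 20) (bh a 24 - 20) (Sy1.tl fl ll 24) (Sy1.tl fl ll 25) (Sy1.tl fl ll 26)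
    (Sy1.tl fl ll 27) 0 M

theorem nat_sub20 {n : ℕ} {x : ℝ} (h : (n : ℝ) - 20 ≤ x) (hx : 0 ≤ x) : ((n - 20 : ℕ) : ℝ) ≤ x := by
  rcases le_total 20 n with k | k
  · rw [Nat.cast_sub k]
    exact h
  · rw [Nat.sub_eq_zero_of_le k]
    simpa using hx

theorem nat_sub20' {n : ℕ} {x : ℝ} (h : x ≤ (n : ℝ) - 20) (hx : 0 ≤ x) : x ≤ ((n - 20 : ℕ) : ℝ) := by
  have : (20 : ℝ) ≤ n := by linarith
  have k : 20 ≤ n := by exact_mod_cast this
  rw [Nat.cast_sub k]
  exact h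

theorem far_of {c : Cu} (h : OkU1 c) {a : List Atom} {fl ll : List (ℕ × ℕ)} {M : ℕ}
    (hc : farL a fl ll M = true) (hb : Box1 c) (hs : Hs Sm1 c a) :
    96000 * c.f 1 2 + (TF fl ll).real (cuC c 1 2 0 3) ≤ ((M : ℝ) - 16777216) + 88 := by
  have hw0 := h.tf.w0
  have l := bl_ok hb hs 24 (by norm_num)
  have u := bh_ok hb hs 24 (by norm_num)
  have k := cellL_ok hc
  refine Pool.Agent.Helper83.NE.mx1_far h _ fun g hg hgs => ?_
  have cg := cg_pr (a := ((bl a 24 - 20 : ℕ) : ℤ)) (b := ((bh a 24 - 20 : ℕ) : ℤ)) h.tf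
    (by push_cast; exact nat_sub20 l hw0.le) (by push_cast; exact nat_sub20' u hw0.le) hg hgs false
  have := k g cg
  have e : TF fl ll = ⟨ltab (Sy1.tl fl ll 24), ltab (Sy1.tl fl ll 25), ltab (Sy1.tl fl ll 26),
    ltab (Sy1.tl fl ll 27)⟩ := rfl
  rw [e]
  push_cast at this
  linarith

end Pool.Agent.Helper58.Eng
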