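import Pool.Agent.Helper58.TS.Eng.Blk1
import Pool.Agent.Helper51.NE.ClassS

/-!
# `MixedI`: the block of the class `0` from its checks
-/

set_option autoImplicit false

namespace Pool.Agent.Helper58.Eng

open Pool.Agent.Helper62.NE Pool.Agent.Helper95.TS Pool.Agent.Helper53.NE Pool.Agent.Helper90.TS
  Pool.Agent.Helper83.TS Pool.Agent.Helper56.NE Pool.Agent.Helper44.NE Pool.Agent.Helper51.NE

/-- the data of a cell with the slots `w x y d` for the check of helper51 -/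
def cellD (a : List Atom) (fl ll : List (ℕ × ℕ)) (w x y d : ℕ) : CellD where
  ab := bif Nat.ble (bl a w) 0 then
    some (Sy1.tl fl ll w, Sy1.tl fl ll x, Sy1.tl fl ll y, Sy1.tl fl ll d) else none
  pv := [⟨Nat.sub (bl a w) 20, Nat.sub (bh a w) 20, Nat.sub (bl a x) 20, Nat.sub (bh a x) 20,
    Nat.sub (bl a y) 20, Nat.sub (bh a y) 20, Nat.sub (bl a d) 20, Nat.sub (bh a d) 20,
    Sy1.tl fl ll w, Sy1.tl fl ll x, Sy1.tl fl ll y, Sy1.tl fl ll d⟩]

theorem vof_ltab (l : List ℕ) (n : ℤ) : ((vof l n : ℤ) : ℝ) = ltab l n := by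
  unfold vof ltab
  rw [getD_nth]
  push_cast
  ring

theorem near_in {x : ℝ} {m : ℤ} {l h : ℕ} (k : Near x m) (x0 : 0 ≤ x) (h1 : (l : ℝ) - 20 ≤ x)
    (h2 : x ≤ (h : ℝ) - 20) : ((Nat.sub l 20 : ℕ) : ℤ) ≤ m ∧ m ≤ ((Nat.sub h 20 : ℕ) : ℤ) := by
  constructor
  · exact k.ge_of_ge (by
      rw [Int.cast_natCast]
      exact nat_sub20 h1 x0)
  · exact k.le_of_le (by
      rw [Int.cast_natCast]
      exact nat_sub20' h2 x0)

/-- the grid cells near a real cell are states of the check -/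
theorem val_of {f W X Y D : ℝ} (h : PrU f W X Y D ∨ AbU f W X Y D) {a : List Atom}
    {fl ll : List (ℕ × ℕ)} {w x y d : ℕ}
    (w0 : ((bl a w : ℕ) : ℝ) - 20 ≤ W) (w1 : W ≤ ((bh a w : ℕ) : ℝ) - 20)
    (x0 : ((bl a x : ℕ) : ℝ) - 20 ≤ X) (x1 : X ≤ ((bh a x : ℕ) : ℝ) - 20)
    (y0 : ((bl a y : ℕ) : ℝ) - 20 ≤ Y) (y1 : Y ≤ ((bh a y : ℕ) : ℝ) - 20)
    (d0 : ((bl a d : ℕ) : ℝ) - 20 ≤ D) (d1 : D ≤ ((bh a d : ℕ) : ℝ) - 20)
    {g : GC} (hg : NearC ⟨W, X, Y, D⟩ g) (hs : g.Sum) :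
    ∃ v : ℤ, (cellD a fl ll w x y d).Val g v ∧ (v : ℝ) = 4 * (g.vol : ℝ) +
      (⟨ltab (Sy1.tl fl ll w), ltab (Sy1.tl fl ll x), ltab (Sy1.tl fl ll y),
        ltab (Sy1.tl fl ll d)⟩ : Tab).grid g := by
  rcases h with h | h
  · refine ⟨4 * g.vol + vof (Sy1.tl fl ll w) g.w + vof (Sy1.tl fl ll x) g.X +
      vof (Sy1.tl fl ll y) g.Y + vof (Sy1.tl fl ll d) g.D, Or.inr ⟨_, List.mem_singleton.2 rfl, ?_⟩, ?_⟩
    · obtain ⟨a0, a1, aX, aY, asum⟩ := (prC_of h).near hg hs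
      have dd := box_near (lo := 0) (hi := 20) hg.D (by push_cast; exact h.D0)
        (by push_cast; exact h.D1.le)
      refine ⟨a0, a1, aX, aY, dd.1, dd.2, asum, ?_, ?_, ?_, ?_, rfl⟩
      · exact near_in hg.w h.w0.le w0 w1
      · exact near_in hg.X h.X0.le x0 x1
      · exact near_in hg.Y h.Y0.le y0 y1
      · exact near_in hg.D h.D0 d0 d1
    · push_cast
      rw [vof_ltab, vof_ltab, vof_ltab, vof_ltab]
      unfold Tab.grid
      ring
  · have hg' : g = ⟨-20, 0, 0, 40⟩ := AbC.near (f := f) ⟨h.w, h.X, h.Y, h.D, h.val⟩ hg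
    have e : Nat.ble (bl a w) 0 = true := by
      rw [h.w] at w0
      have : ((bl a w : ℕ) : ℝ) ≤ ((0 : ℕ) : ℝ) := by
        push_cast
        linarith
      exact Nat.ble_eq_true_of_le (by exact_mod_cast this)
    refine ⟨vof (Sy1.tl fl ll w) (-20) + vof (Sy1.tl fl ll x) 0 + vof (Sy1.tl fl ll y) 0 +
      vof (Sy1.tl fl ll d) 40, Or.inl ⟨(Sy1.tl fl ll w, Sy1.tl fl ll x, Sy1.tl fl ll y,
        Sy1.tl fl ll d), ?_, hg', rfl⟩, ?_⟩
    · unfold cellD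
      simp only [e, cond_true]
    · subst hg'
      push_cast
      rw [vof_ltab, vof_ltab, vof_ltab, vof_ltab]
      have ev : ((GC.vol ⟨(-20 : ℤ), 0, 0, 40⟩ : ℤ) : ℝ) = 0 := by
        unfold GC.vol
        rw [if_pos (by norm_num)]
        simp
      rw [ev]
      unfold Tab.grid
      ring

/-- the check of the class `0` without main cell -/
def clsL (a : List Atom) (fl ll : List (ℕ × ℕ)) (M : ℕ) : Bool :=
  classOK M (cellD a fl ll 12 14 13 15) (cellD a fl ll 16 17 18 19) (cellD a fl ll 20 22 21 23)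

theorem cell_val {c : Cu} (h : OkU1 c) {a : List Atom} {fl ll : List (ℕ × ℕ)}
    (hb : Box1 c) (hs : Hs Sm1 c a) {m x y : Fin 4} {w' x' y' d' : ℕ} (hn : [0, m, x, y].Nodup)
    (hw : w' < 34 ∧ x' < 34 ∧ y' < 34 ∧ d' < 34) (ew : s1 c w' = c.w 0 m) (eX : s1 c x' = c.X 0 m x)
    (eY : s1 c y' = c.X 0 m y) (eD : s1 c d' = c.D 0 m) {g : GC} (hg : NearC (cuC c 0 m x y) g)
    (gs : g.Sum) :
    ∃ v : ℤ, (cellD a fl ll w' x' y' d').Val g v ∧ (v : ℝ) = 4 * (g.vol : ℝ) +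
      (⟨ltab (Sy1.tl fl ll w'), ltab (Sy1.tl fl ll x'), ltab (Sy1.tl fl ll y'),
        ltab (Sy1.tl fl ll d')⟩ : Tab).grid g :=
  val_of (h.cell m x y hn) (by rw [← ew]; exact bl_ok hb hs _ hw.1)
    (by rw [← ew]; exact bh_ok hb hs _ hw.1) (by rw [← eX]; exact bl_ok hb hs _ hw.2.1)
    (by rw [← eX]; exact bh_ok hb hs _ hw.2.1) (by rw [← eY]; exact bl_ok hb hs _ hw.2.2.1)
    (by rw [← eY]; exact bh_ok hb hs _ hw.2.2.1) (by rw [← eD]; exact bl_ok hb hs _ hw.2.2.2)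
    (by rw [← eD]; exact bh_ok hb hs _ hw.2.2.2) hg gs

theorem cls_of {c : Cu} (h : OkU1 c) {a : List Atom} {fl ll : List (ℕ × ℕ)} {M : ℕ}
    (hc : clsL a fl ll M = true) (hb : Box1 c) (hs : Hs Sm1 c a) (hm : c.mf 0 = 0) :
    96000 * (c.mf 0 + c.f 0 1 + c.f 0 2 + c.f 0 3) + (TA fl ll).real (cuC c 0 1 3 2)
      + (TB fl ll).real (cuC c 0 2 1 3) + (TD fl ll).real (cuC c 0 3 2 1) ≤
      ((M : ℝ) - 3 * 16809216) + 264 := by
  have k := Pool.Agent.Helper83.NE.mx1_class h (m0 := 1) (m1 := 2) (m2 := 3) (by decide) (TA fl ll)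
    (TB fl ll) (TD fl ll) (M := (M : ℝ) - 3 * 16809216) fun o0 o1 o2 g0 g1 g2 n0 n1 n2 a0 a1 a2 ht => by
      obtain ⟨v0, k0, e0⟩ := cell_val (fl := fl) (ll := ll) h hb hs (m := 1) (x := 3) (y := 2)
        (w' := 12) (x' := 14) (y' := 13) (d' := 15) (by decide) (by norm_num) rfl rfl rfl rfl n0 a0
      obtain ⟨v1, k1, e1⟩ := cell_val (fl := fl) (ll := ll) h hb hs (m := 2) (x := 1) (y := 3)
        (w' := 16) (x' := 17) (y' := 18) (d' := 19) (by decide) (by norm_num) rfl rfl rfl rfl n1 a1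
      obtain ⟨v2, k2, e2⟩ := cell_val (fl := fl) (ll := ll) h hb hs (m := 3) (x := 2) (y := 1)
        (w' := 20) (x' := 22) (y' := 21) (d' := 23) (by decide) (by norm_num) rfl rfl rfl rfl n2 a2
      have s := class_sound hc o0 o1 o2 k0 k1 k2 ht
      have s' : ((v0 + v1 + v2 : ℤ) : ℝ) ≤ (((M : ℤ) - 3 * 16809216 : ℤ) : ℝ) := Int.cast_le.2 s
      push_cast at s'
      rw [e0, e1, e2] at s'
      unfold TA TB TD
      linarith
  rw [hm]
  linarith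

/-! ### the main alternative -/

/-- `MajPair (al / 96000) (bw / 4800)` -/
def majOK (al bw : ℕ) : Bool :=
  Nat.ble (Nat.add 23040 (Nat.mul 4 bw)) al && (Nat.ble 1345 bw ||
    Nat.ble (Nat.add 6488064 (Nat.pow (Nat.add 384 bw) 2)) (Nat.mul 288 al)) &&
  Nat.ble (Nat.add 16768 (Nat.mul 12 bw)) al && Nat.ble (Nat.mul 20 bw) al

theorem majOK_ok {al bw : ℕ} (h : majOK al bw = true) : MajPair ((al : ℝ) / 96000) ((bw : ℝ) / 4800) := by
  unfold majOK at h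
  simp only [Bool.and_eq_true, Bool.or_eq_true, Nat.ble_eq] at h
  obtain ⟨⟨⟨h1, h2⟩, h3⟩, h4⟩ := h
  have b0 : (0 : ℝ) ≤ bw := Nat.cast_nonneg _
  have h1' : (23040 + 4 * bw : ℝ) ≤ al := by
    have : 23040 + 4 * bw ≤ al := h1
    exact_mod_cast this
  have h3' : (16768 + 12 * bw : ℝ) ≤ al := by
    have : 16768 + 12 * bw ≤ al := h3
    exact_mod_cast this
  have h4' : (20 * bw : ℝ) ≤ al := by
    have : 20 * bw ≤ al := h4
    exact_mod_cast this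
  refine ⟨by positivity, by linarith, fun hb => ?_, by linarith, by linarith⟩
  rcases h2 with h2 | h2
  · have : (1345 : ℝ) ≤ bw := by exact_mod_cast h2
    linarith
  · have h2' : (6488064 + (384 + bw) ^ 2 : ℝ) ≤ 288 * al := by
      have : 6488064 + (384 + bw) ^ 2 ≤ 288 * al := h2
      exact_mod_cast this
    have e : (2 / 25 + (bw : ℝ) / 4800) ^ 2 = (384 + bw) ^ 2 / 23040000 := by
      field_simp
      ring
    rw [e]
    linarith

/-- the check of the class `0` with main cell -/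
def manL (a : List Atom) (fl ll : List (ℕ × ℕ)) (al bw mo0 mo1 mo2 : ℕ) : Bool :=
  majOK al bw && mainOK mo0 mo1 mo2 bw (cellD a fl ll 12 14 13 15) (cellD a fl ll 16 17 18 19)
    (cellD a fl ll 20 22 21 23)

theorem man_of {c : Cu} (h : OkU1 c) {a : List Atom} {fl ll : List (ℕ × ℕ)} {al bw mo0 mo1 mo2 : ℕ}
    (hc : manL a fl ll al bw mo0 mo1 mo2 = true) (hb : Box1 c) (hs : Hs Sm1 c a) (hm : c.mf 0 ≠ 0) :
    96000 * (c.mf 0 + c.f 0 1 + c.f 0 2 + c.f 0 3) + (TA fl ll).real (cuC c 0 1 3 2)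
      + (TB fl ll).real (cuC c 0 2 1 3) + (TD fl ll).real (cuC c 0 3 2 1) ≤
      ((al : ℝ) + mo0 + mo1 + mo2 - 3 * 16809216) + 264 := by
  unfold manL at hc
  rw [Bool.and_eq_true] at hc
  obtain ⟨hj, hc⟩ := hc
  obtain ⟨s0, s1', s2⟩ := main_sound hc
  have key : ∀ {v : ℤ} {g : GC} {mo : ℕ} {T : Tab}, v - (bw : ℤ) * max g.w 0 ≤ (mo : ℤ) - 16809216 →
      (v : ℝ) = 4 * (g.vol : ℝ) + T.grid g →
      4 * (g.vol : ℝ) + T.grid g - 4800 * ((bw : ℝ) / 4800) * (max g.w 0 : ℤ) ≤ (mo : ℝ) - 16809216 := by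
    intro v g mo T s e
    have s' : ((v - (bw : ℤ) * max g.w 0 : ℤ) : ℝ) ≤ (((mo : ℤ) - 16809216 : ℤ) : ℝ) :=
      Int.cast_le.2 s
    rw [Int.cast_sub, Int.cast_mul, Int.cast_sub, e] at s'
    push_cast at s' ⊢
    linarith
  have k := Pool.Agent.Helper83.NE.mx1_main h (m0 := 1) (m1 := 2) (m2 := 3) (by decide) (TA fl ll)
    (TB fl ll) (TD fl ll) (majOK_ok hj) hm (M0 := (mo0 : ℝ) - 16809216) (M1 := (mo1 : ℝ) - 16809216)
    (M2 := (mo2 : ℝ) - 16809216)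
    (fun g n0 a0 => by
      obtain ⟨v0, k0, e0⟩ := cell_val (fl := fl) (ll := ll) h hb hs (m := 1) (x := 3) (y := 2)
        (w' := 12) (x' := 14) (y' := 13) (d' := 15) (by decide) (by norm_num) rfl rfl rfl rfl n0 a0
      exact key (s0 g v0 k0) e0)
    (fun g n1 a1 => by
      obtain ⟨v1, k1, e1⟩ := cell_val (fl := fl) (ll := ll) h hb hs (m := 2) (x := 1) (y := 3)
        (w' := 16) (x' := 17) (y' := 18) (d' := 19) (by decide) (by norm_num) rfl rfl rfl rfl n1 a1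
      exact key (s1' g v1 k1) e1)
    (fun g n2 a2 => by
      obtain ⟨v2, k2, e2⟩ := cell_val (fl := fl) (ll := ll) h hb hs (m := 3) (x := 2) (y := 1)
        (w' := 20) (x' := 22) (y' := 21) (d' := 23) (by decide) (by norm_num) rfl rfl rfl rfl n2 a2
      exact key (s2 g v2 k2) e2)
  linarith

end Pool.Agent.Helper58.Eng
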