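import Pool.Agent.Helper58.TS.Eng.Feat1

/-!
# `MixedI`: the sum of the blocks of a leaf
-/

set_option autoImplicit false

namespace Pool.Agent.Helper58.Eng

open Pool.Agent.Helper62.NE Pool.Agent.Helper95.TS Pool.Agent.Helper53.NE Pool.Agent.Helper90.TS
  Pool.Agent.Helper83.TS Pool.Agent.Helper56.NE

theorem fr1_lt : ∀ k, (Sy1.fr k).hs < 34 ∧ (Sy1.fr k).ls < 34 := by
  intro k
  rcases lt_or_ge k 28 with h | h
  · revert k
    decide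
  · have e : Sy1.fr k = fr0 := by
      obtain ⟨m, rfl⟩ : ∃ m, k = m + 28 := ⟨k - 28, by omega⟩
      rfl
    rw [e]
    decide

theorem lr1_lt : ∀ k, ∀ u ∈ (Sy1.lr k).1, u.1 < 34 := by
  intro k
  rcases lt_or_ge k 37 with h | h
  · revert k
    decide
  · have e : Sy1.lr k = ([], 0, 0) := by
      obtain ⟨m, rfl⟩ : ∃ m, k = m + 37 := ⟨k - 37, by omega⟩
      rfl
    rw [e]
    intro u hu
    exact absurd hu List.not_mem_nil

/-- the boxes of the slots -/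
def Box1 (c : Cu) : Prop := ∀ s < 34, ((nth 0 lo1 s : ℕ) : ℝ) - 20 ≤ s1 c s ∧
  s1 c s ≤ ((nth 0 hi1 s : ℕ) : ℝ) - 20

theorem Box1.range {c : Cu} (h : Box1 c) : ∀ s < 34, -20 ≤ s1 c s ∧ s1 c s ≤ 40 := by
  intro s hs
  obtain ⟨h1, h2⟩ := h s hs
  have k : nth 0 hi1 s ≤ 60 := by
    clear h1 h2
    revert s
    decide
  have k' : ((nth 0 hi1 s : ℕ) : ℝ) ≤ 60 := by exact_mod_cast k
  have k0 : (0 : ℝ) ≤ ((nth 0 lo1 s : ℕ) : ℝ) := Nat.cast_nonneg _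
  constructor <;> linarith

section

variable (fl ll : List (ℕ × ℕ))

/-- the tables of the cell `(0; 1)` in the order of `cuC c 0 1 3 2` -/
noncomputable def TA : Tab := ⟨ltab (Sy1.tl fl ll 12), ltab (Sy1.tl fl ll 14), ltab (Sy1.tl fl ll 13),
  ltab (Sy1.tl fl ll 15)⟩

/-- the tables of the cell `(0; 2)` in the order of `cuC c 0 2 1 3` -/
noncomputable def TB : Tab := ⟨ltab (Sy1.tl fl ll 16), ltab (Sy1.tl fl ll 17), ltab (Sy1.tl fl ll 18),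
  ltab (Sy1.tl fl ll 19)⟩

/-- the tables of the cell `(0; 3)` in the order of `cuC c 0 3 2 1` -/
noncomputable def TD : Tab := ⟨ltab (Sy1.tl fl ll 20), ltab (Sy1.tl fl ll 22), ltab (Sy1.tl fl ll 21),
  ltab (Sy1.tl fl ll 23)⟩

/-- the tables of the cell `(1; 2)` in the order of `cuC c 1 2 0 3` -/
noncomputable def TF : Tab := ⟨ltab (Sy1.tl fl ll 24), ltab (Sy1.tl fl ll 25), ltab (Sy1.tl fl ll 26),
  ltab (Sy1.tl fl ll 27)⟩

end

/-- **The sum of the blocks.** -/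
theorem core1 {c : Cu} (h : OkU1 c) (hb : Box1 c) {fl ll : List (ℕ × ℕ)}
    (hm : ∀ t ∈ fl, mono t.2 = true) (hf : ∀ t ∈ fl, Sm1.Q c 0 t.1) (hl : ∀ t ∈ ll, Sm1.Q c 1 t.1)
    {MC MF MT M2 M3 : ℝ}
    (hC : 96000 * (c.mf 0 + c.f 0 1 + c.f 0 2 + c.f 0 3) + (TA fl ll).real (cuC c 0 1 3 2)
      + (TB fl ll).real (cuC c 0 2 1 3) + (TD fl ll).real (cuC c 0 3 2 1) ≤ MC + 264)
    (hF : 96000 * c.f 1 2 + (TF fl ll).real (cuC c 1 2 0 3) ≤ MF + 88)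
    (hT : 96000 * c.mf 1 + (interp (ltab (Sy1.tl fl ll 28)) (c.v 1 0)
      + interp (ltab (Sy1.tl fl ll 30)) (c.v 1 2) + interp (ltab (Sy1.tl fl ll 29)) (c.v 1 3)
      + interp (ltab (Sy1.tl fl ll 31)) (c.v 1 0 + c.v 1 2)
      + interp (ltab (Sy1.tl fl ll 32)) (c.v 1 3 + c.v 1 2)
      + interp (ltab (Sy1.tl fl ll 33)) (20 - c.e 1)) ≤ MT + 69)
    (h2 : 96000 * c.VR 2 + (interp (ltab (Sy1.tl fl ll 0)) (c.v 2 1)
      + interp (ltab (Sy1.tl fl ll 1)) (c.v 2 3) + interp (ltab (Sy1.tl fl ll 2)) (c.v 2 0)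
      + interp (ltab (Sy1.tl fl ll 3)) (c.v 2 1 + c.v 2 3)
      + interp (ltab (Sy1.tl fl ll 4)) (c.v 2 3 + c.v 2 0)
      + interp (ltab (Sy1.tl fl ll 5)) (20 - c.e 2)) ≤ M2 + 94)
    (h3 : 96000 * c.VR 3 + (interp (ltab (Sy1.tl fl ll 6)) (c.v 3 0)
      + interp (ltab (Sy1.tl fl ll 7)) (c.v 3 2) + interp (ltab (Sy1.tl fl ll 8)) (c.v 3 1)
      + interp (ltab (Sy1.tl fl ll 9)) (c.v 3 0 + c.v 3 2)
      + interp (ltab (Sy1.tl fl ll 10)) (c.v 3 2 + c.v 3 1)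
      + interp (ltab (Sy1.tl fl ll 11)) (20 - c.e 3)) ≤ M3 + 94)
    (hs : MC + MF + MT + M2 + M3 + Sy1.ka ll + 609 ≤ 294240 + Sy1.kb ll) :
    c.val ≤ 613 / 200 := by
  have p := Sy1.price (s1 c) 34 fl ll (fun t _ => fr1_lt t.1) (fun t _ => lr1_lt t.1) hm hf hl hb.range
  have f0 := h.t0
  have f3 := h.t3
  simp only [Finset.sum_range_succ, Finset.sum_range_zero, s1, zero_add] at p
  simp only [Tab.real, TA, TB, TD, TF, cuC] at hC hF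
  unfold Cu.val
  rw [f0, f3]
  linarith

end Pool.Agent.Helper58.Eng
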