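import Pool.Agent.Helper58.TS.Eng.Sys
import Pool.Agent.Helper83.NE.OneBlk

/-!
# `MixedI`: slots, relations and disjunctions of the leaves

`s1 c s`, `s < 34`: `0 - 5` row 2, `6 - 11` row 3, then four for every cell `(0;1) (0;2) (0;3) (1;2)`, then
`28 - 33` the tall class.
-/

set_option autoImplicit false

namespace Pool.Agent.Helper58.Eng

open Pool.Agent.Helper62.NE Pool.Agent.Helper95.TS Pool.Agent.Helper53.NE Pool.Agent.Helper90.TS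
  Pool.Agent.Helper83.TS

/-- the slots -/
def s1 (c : Cu) : ℕ → ℝ
  | 0 => c.v 2 1
  | 1 => c.v 2 3
  | 2 => c.v 2 0
  | 3 => c.v 2 1 + c.v 2 3
  | 4 => c.v 2 3 + c.v 2 0
  | 5 => 20 - c.e 2
  | 6 => c.v 3 0
  | 7 => c.v 3 2
  | 8 => c.v 3 1
  | 9 => c.v 3 0 + c.v 3 2
  | 10 => c.v 3 2 + c.v 3 1
  | 11 => 20 - c.e 3
  | 12 => c.w 0 1
  | 13 => c.X 0 1 2
  | 14 => c.X 0 1 3
  | 15 => c.D 0 1
  | 16 => c.w 0 2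
  | 17 => c.X 0 2 1
  | 18 => c.X 0 2 3
  | 19 => c.D 0 2
  | 20 => c.w 0 3
  | 21 => c.X 0 3 1
  | 22 => c.X 0 3 2
  | 23 => c.D 0 3
  | 24 => c.w 1 2
  | 25 => c.X 1 2 0
  | 26 => c.X 1 2 3
  | 27 => c.D 1 2
  | 28 => c.v 1 0
  | 29 => c.v 1 3
  | 30 => c.v 1 2
  | 31 => c.v 1 0 + c.v 1 2
  | 32 => c.v 1 3 + c.v 1 2
  | 33 => 20 - c.e 1
  | _ => 0

/-- the function relations -/
def frs1 : List FR := [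
  ⟨13, 60, false, 0, 0⟩,
  ⟨14, 60, false, 8, 0⟩,
  ⟨18, 60, false, 7, 0⟩,
  ⟨22, 60, false, 1, 0⟩,
  ⟨26, 60, false, 7, 0⟩,
  ⟨21, 60, false, 29, 0⟩,
  ⟨30, 40, false, 24, 0⟩,
  ⟨25, 80, false, 21, 0⟩,
  ⟨15, 0, false, 3, 0⟩,
  ⟨15, 0, false, 10, 0⟩,
  ⟨19, 0, false, 10, 0⟩,
  ⟨23, 0, false, 3, 0⟩,
  ⟨27, 0, false, 9, 0⟩,
  ⟨23, 0, false, 32, 0⟩,
  ⟨0, 0, false, 13, 60⟩,
  ⟨8, 0, false, 14, 60⟩,
  ⟨7, 0, false, 18, 60⟩,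
  ⟨1, 0, false, 22, 60⟩,
  ⟨7, 0, false, 26, 60⟩,
  ⟨29, 0, false, 21, 60⟩,
  ⟨28, 40, false, 1, 0⟩,
  ⟨29, 40, false, 2, 0⟩,
  ⟨28, 40, false, 7, 0⟩,
  ⟨30, 40, false, 6, 0⟩,
  ⟨27, 0, false, 17, 0⟩,
  ⟨19, 0, false, 25, 0⟩,
  ⟨0, 40, false, 6, 0⟩,
  ⟨8, 40, false, 2, 0⟩]

/-- the linear relations: `(slot, a, b)` stands for `(a - b) * slot`, then `p - q` -/
def lrs1 : List (List (ℕ × ℕ × ℕ) × ℕ × ℕ) := [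
  ([(0, 0, 1), (13, 0, 1)], 20, 0),
  ([(8, 0, 1), (14, 0, 1)], 20, 0),
  ([(7, 0, 1), (18, 0, 1)], 20, 0),
  ([(1, 0, 1), (22, 0, 1)], 20, 0),
  ([(7, 0, 1), (26, 0, 1)], 20, 0),
  ([(29, 0, 1), (21, 0, 1)], 20, 0),
  ([(30, 0, 1), (24, 0, 1)], 0, 0),
  ([(25, 0, 1), (21, 0, 1)], 40, 0),
  ([(0, 0, 1), (1, 0, 1), (2, 1, 0), (15, 2, 0)], 0, 20),
  ([(8, 0, 1), (7, 0, 1), (6, 1, 0), (15, 2, 0)], 0, 20),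
  ([(7, 0, 1), (8, 0, 1), (6, 1, 0), (19, 2, 0)], 0, 20),
  ([(1, 0, 1), (0, 0, 1), (2, 1, 0), (23, 2, 0)], 0, 20),
  ([(7, 0, 1), (6, 0, 1), (8, 1, 0), (27, 2, 0)], 0, 20),
  ([(29, 0, 1), (30, 0, 1), (28, 1, 0), (23, 2, 0)], 0, 20),
  ([(0, 1, 0), (13, 1, 0)], 0, 20),
  ([(8, 1, 0), (14, 1, 0)], 0, 20),
  ([(7, 1, 0), (18, 1, 0)], 0, 20),
  ([(1, 1, 0), (22, 1, 0)], 0, 20),
  ([(7, 1, 0), (26, 1, 0)], 0, 20),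
  ([(29, 1, 0), (21, 1, 0)], 0, 20),
  ([(5, 1, 0), (33, 0, 1), (4, 0, 2)], 0, 0),
  ([(11, 1, 0), (33, 0, 1), (9, 0, 2)], 0, 0),
  ([(29, 2, 0), (33, 0, 1), (11, 0, 1)], 0, 0),
  ([], 0, 0),
  ([(24, 1, 0), (16, 0, 1)], 0, 0),
  ([(27, 1, 0), (24, 1, 0), (17, 0, 1)], 0, 20),
  ([(19, 1, 0), (24, 1, 0), (25, 0, 1)], 0, 20),
  ([(24, 0, 1), (16, 1, 0)], 0, 0),
  ([(27, 1, 0), (16, 1, 0), (17, 0, 1)], 0, 20),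
  ([(19, 1, 0), (16, 1, 0), (25, 0, 1)], 0, 20),
  ([(5, 25, 0), (11, 25, 0)], 0, 764),
  ([(7, 2, 0), (11, 0, 1), (5, 0, 1)], 0, 0),
  ([(1, 2, 0), (5, 0, 1), (11, 0, 1)], 0, 0),
  ([(6, 0, 2), (11, 1, 0), (2, 2, 0), (5, 0, 1)], 0, 0),
  ([(2, 0, 2), (5, 1, 0), (6, 2, 0), (11, 0, 1)], 0, 0),
  ([(8, 0, 2), (11, 1, 0), (0, 2, 0), (5, 0, 1)], 0, 0),
  ([(0, 0, 2), (5, 1, 0), (8, 2, 0), (11, 0, 1)], 0, 0)]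

/-- the system of `MixedI` -/
def Sy1 : Sys := ⟨fun k => nth fr0 frs1 k, fun k => nth ([], 0, 0) lrs1 k⟩

/-- the meaning of the atoms -/
def Sm1 : Sem Cu where
  ft := s1
  Q c a b := match a with
    | 0 => Sy1.loV (s1 c) b ≤ Sy1.hiV (s1 c) b
    | 1 => 0 ≤ Sy1.LV (s1 c) b
    | 2 => c.mf 0 = 0
    | 3 => c.mf 0 ≠ 0
    | _ => True

/-- the nodes: premises and alternatives -/
def djs1 : List (List Atom × List (List Atom)) := [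
  -- 0 PAIR
  ([], [[.pr 0 26, .pr 1 33, .pr 1 36], [.pr 0 27, .pr 1 34, .pr 1 35],
    [.pr 1 31, .pr 1 33, .pr 1 35], [.pr 1 32, .pr 1 34, .pr 1 36]]),
  -- 1 KIND 0 1 2
  ([], [[.pr 0 0, .pr 1 0], [.pr 0 8, .pr 1 8, .pr 0 14, .pr 1 14, .lw 12 20, .up 15 40, .up 3 40,
    .pr 0 1, .pr 1 1, .pr 0 3, .pr 1 3]]),
  -- 2 KIND 0 1 3
  ([], [[.pr 0 1, .pr 1 1], [.pr 0 9, .pr 1 9, .pr 0 15, .pr 1 15, .lw 12 20, .up 15 40, .up 10 40,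
    .pr 0 0, .pr 1 0, .pr 0 2, .pr 1 2]]),
  -- 3 KIND 0 2 3
  ([], [[.pr 0 2, .pr 1 2], [.pr 0 10, .pr 1 10, .pr 0 16, .pr 1 16, .lw 16 20, .up 19 40, .up 10 40,
    .pr 0 1, .pr 1 1]]),
  -- 4 KIND 0 3 2
  ([], [[.pr 0 3, .pr 1 3], [.pr 0 11, .pr 1 11, .pr 0 17, .pr 1 17, .lw 20 20, .up 23 40, .up 3 40,
    .pr 0 0, .pr 1 0, .pr 0 5, .pr 1 5]]),
  -- 5 KIND 1 2 3
  ([], [[.pr 0 4, .pr 1 4], [.pr 0 12, .pr 1 12, .pr 0 18, .pr 1 18, .up 9 40]]),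
  -- 6 KIND 0 3 1 (the tall class)
  ([], [[.pr 0 5, .pr 1 5], [.pr 0 13, .pr 1 13, .pr 0 19, .pr 1 19, .lw 20 20, .up 23 40, .up 32 40,
    .pr 0 3, .pr 1 3]]),
  -- 7 TRIP
  ([], [[.pr 1 20], [.pr 0 20], [.pr 0 21]]),
  -- 8 CONF 2
  ([], [[.pr 0 24], [.pr 0 25]]),
  -- 9 MAIN 0
  ([], [[.pr 2 0], [.pr 3 0]]),
  -- 10 the relations which always hold: coupling, cross, e2 + e3 <= 236/25
  ([], [[.pr 0 6, .pr 1 6, .pr 0 7, .pr 1 7, .pr 1 30]]),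
  -- 11 row 3 against the tall class
  ([], [[.pr 1 21], [.pr 1 22], [.pr 0 22], [.pr 0 23]]),
  -- 12 CONF 2, exact
  ([], [[.up 16 0, .pr 0 24, .pr 0 25], [.pr 1 24, .pr 1 25, .pr 0 24], [.pr 1 24, .pr 1 26, .pr 0 25],
    [.pr 1 27, .pr 1 28, .pr 0 24], [.pr 1 27, .pr 1 29, .pr 0 25]]),
  -- 13, 14, 15 presence of the cells (0;1), (0;2), (0;3)
  ([], [[.up 12 0, .up 13 20, .up 14 20, .lw 15 60], [.lw 12 20, .up 15 40]]),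
  ([], [[.up 16 0, .up 17 20, .up 18 20, .lw 19 60], [.lw 16 20, .up 19 40]]),
  ([], [[.up 20 0, .up 21 20, .up 22 20, .lw 23 60], [.lw 20 20, .up 23 40]])]

/-- the disjunction `k` -/
def dj1 (k : ℕ) : List Atom × List (List Atom) := nth ([], [[]]) djs1 k

/-- the boxes of the slots: lower indices (`20` more than the value) -/
def lo1 : List ℕ := [0, 0, 0, 0, 0, 30, 0, 0, 0, 0, 0, 30, 0, 20, 20, 20, 0, 20, 20, 20, 0, 20, 20, 20,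
  33, 20, 20, 20, 21, 21, 0, 8, 8, 16]

/-- upper indices -/
def hi1 : List ℕ := [40, 40, 40, 60, 60, 40, 40, 40, 40, 60, 60, 40, 40, 60, 60, 60, 40, 60, 60, 60,
  40, 60, 60, 60, 40, 60, 60, 40, 40, 40, 7, 27, 27, 40]

section

variable {c : Cu}

/-- a function relation in plain form -/
theorem q0 {k : ℕ} {C D : ℕ} {s t : ℕ} {b : Bool} (e : Sy1.fr k = ⟨s, C, b, t, D⟩)
    (h : cv D (s1 c t) ≤ cv C (s1 c s)) : Sm1.Q c 0 k := by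
  show Sy1.loV (s1 c) k ≤ Sy1.hiV (s1 c) k
  unfold Sys.loV Sys.hiV
  rw [e]
  exact h

/-- a linear relation in plain form -/
theorem q1 {k : ℕ} {l : List (ℕ × ℕ × ℕ)} {p q : ℕ} (e : Sy1.lr k = (l, p, q))
    (h : 0 ≤ (l.map fun t => ((t.2.1 : ℝ) - t.2.2) * s1 c t.1).sum + ((p : ℝ) - q)) :
    Sm1.Q c 1 k := by
  show 0 ≤ Sy1.LV (s1 c) k
  unfold Sys.LV
  rw [e]
  exact h

end

end Pool.Agent.Helper58.Eng
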