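import Pool.Agent.Helper58.TS.Eng.Cls1

/-!
# `MixedI`: the leaves
-/

set_option autoImplicit false

namespace Pool.Agent.Helper58.Eng

open Pool.Agent.Helper62.NE Pool.Agent.Helper95.TS Pool.Agent.Helper53.NE Pool.Agent.Helper90.TS
  Pool.Agent.Helper83.TS Pool.Agent.Helper56.NE Pool.Agent.Helper44.NE

/-- the certificate of a leaf -/
structure Leaf1 where
  /-- the atoms of the path -/
  ats : List Atom
  /-- the function relations `(k, packed table)` -/
  fl : List (ℕ × ℕ)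
  /-- the linear relations `(k, multiplier)` -/
  ll : List (ℕ × ℕ)
  /-- the main cell of the class `0`: `1` absent, `2` present, else both -/
  s : ℕ
  /-- the bound of the class `0`, plus `3 * 16809216` -/
  C : ℕ
  /-- the bound of the cell `(1; 2)`, plus `16777216` -/
  F : ℕ
  /-- the bound of the tall class, plus `25165824` -/
  T : ℕ
  /-- the bounds of the rows, plus `4194304` -/
  R2 : ℕ
  R3 : ℕ
  /-- `96000 α`, `4800 β`, the bounds of the three cells beside the main cell, plus `16809216` -/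
  al : ℕ
  bw : ℕ
  m0 : ℕ
  m1 : ℕ
  m2 : ℕ

/-- the atom follows from the path -/
def hasA (ats : List Atom) (b : Atom) : Bool := ats.any fun a => imp a b

theorem hasA_ok {c : Cu} {ats : List Atom} {b : Atom} (h : hasA ats b = true) (hs : Hs Sm1 c ats) :
    b.Holds Sm1 c := by
  obtain ⟨a, ha, hab⟩ := List.any_eq_true.1 h
  exact imp_ok hab (hs.mem a ha)

/-- the class `0` -/
def Leaf1.cls (L : Leaf1) : Bool :=
  bif Nat.beq L.s 1 then hasA L.ats (.pr 2 0) && clsL L.ats L.fl L.ll L.C else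
  bif Nat.beq L.s 2 then hasA L.ats (.pr 3 0) &&
    (manL L.ats L.fl L.ll L.al L.bw L.m0 L.m1 L.m2 &&
      Nat.ble (Nat.add (Nat.add L.al L.m0) (Nat.add L.m1 L.m2)) L.C)
  else clsL L.ats L.fl L.ll L.C && (manL L.ats L.fl L.ll L.al L.bw L.m0 L.m1 L.m2 &&
      Nat.ble (Nat.add (Nat.add L.al L.m0) (Nat.add L.m1 L.m2)) L.C)

/-- the relations are on the path, the tables are nondecreasing -/
def Leaf1.rel (L : Leaf1) : Bool :=
  (L.fl.all fun t => mono t.2 && hasA L.ats (.pr 0 t.1)) && L.ll.all fun t => hasA L.ats (.pr 1 t.1)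

/-- the sum of the bounds -/
def Leaf1.sum (L : Leaf1) : Bool :=
  Nat.ble (Nat.add (Nat.add (Nat.add L.C L.F) (Nat.add L.T L.R2))
    (Nat.add (Nat.add L.R3 (Sy1.ka L.ll)) 609)) (Nat.add 101053536 (Sy1.kb L.ll))

/-- **The check of a leaf.** -/
noncomputable def Leaf1.ok (L : Leaf1) : Bool :=
  L.rel && L.sum && L.cls && farL L.ats L.fl L.ll L.F && tallL L.ats L.fl L.ll L.T &&
    rowL L.ats L.fl L.ll L.R2 0 && rowL L.ats L.fl L.ll L.R3 6

theorem leaf1_ok {L : Leaf1} (hk : L.ok = true) {c : Cu} (h : OkU1 c) (hb : Box1 c)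
    (hs : Hs Sm1 c L.ats) : c.val ≤ 613 / 200 := by
  unfold Leaf1.ok at hk
  simp only [Bool.and_eq_true] at hk
  obtain ⟨⟨⟨⟨⟨⟨kr, ks⟩, kc⟩, kf⟩, kt⟩, k2⟩, k3⟩ := hk
  unfold Leaf1.rel at kr
  rw [Bool.and_eq_true] at kr
  obtain ⟨kr1, kr2⟩ := kr
  rw [List.all_eq_true] at kr1 kr2
  have hm : ∀ t ∈ L.fl, mono t.2 = true := fun t ht => by
    have := kr1 t ht
    rw [Bool.and_eq_true] at this
    exact this.1
  have hf : ∀ t ∈ L.fl, Sm1.Q c 0 t.1 := fun t ht => by
    have := kr1 t ht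
    rw [Bool.and_eq_true] at this
    exact hasA_ok this.2 hs
  have hl : ∀ t ∈ L.ll, Sm1.Q c 1 t.1 := fun t ht => hasA_ok (kr2 t ht) hs
  have man : ∀ {b : Bool}, (manL L.ats L.fl L.ll L.al L.bw L.m0 L.m1 L.m2 &&
      Nat.ble (Nat.add (Nat.add L.al L.m0) (Nat.add L.m1 L.m2)) L.C) = b → b = true → c.mf 0 ≠ 0 →
      96000 * (c.mf 0 + c.f 0 1 + c.f 0 2 + c.f 0 3) + (TA L.fl L.ll).real (cuC c 0 1 3 2)
      + (TB L.fl L.ll).real (cuC c 0 2 1 3) + (TD L.fl L.ll).real (cuC c 0 3 2 1) ≤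
      ((L.C : ℝ) - 3 * 16809216) + 264 := by
    intro b e hbt hne
    rw [hbt, Bool.and_eq_true] at e
    have k := man_of h e.1 hb hs hne
    have e2 : L.al + L.m0 + (L.m1 + L.m2) ≤ L.C := Nat.le_of_ble_eq_true e.2
    have e3 : (L.al : ℝ) + L.m0 + (L.m1 + L.m2) ≤ L.C := by exact_mod_cast e2
    linarith
  have hC : 96000 * (c.mf 0 + c.f 0 1 + c.f 0 2 + c.f 0 3) + (TA L.fl L.ll).real (cuC c 0 1 3 2)
      + (TB L.fl L.ll).real (cuC c 0 2 1 3) + (TD L.fl L.ll).real (cuC c 0 3 2 1) ≤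
      ((L.C : ℝ) - 3 * 16809216) + 264 := by
    unfold Leaf1.cls at kc
    cases e1 : Nat.beq L.s 1 with
    | true =>
      rw [e1, cond_true, Bool.and_eq_true] at kc
      exact cls_of h kc.2 hb hs (hasA_ok kc.1 hs)
    | false =>
      rw [e1, cond_false] at kc
      cases e2 : Nat.beq L.s 2 with
      | true =>
        rw [e2, cond_true, Bool.and_eq_true] at kc
        exact man kc.2 rfl (hasA_ok kc.1 hs)
      | false =>
        rw [e2, cond_false, Bool.and_eq_true] at kc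
        by_cases hm0 : c.mf 0 = 0
        · exact cls_of h kc.1 hb hs hm0
        · exact man kc.2 rfl hm0
  have hT := tall_of h kt hb hs
  have hF := far_of h kf hb hs
  have h2 := row_of h (r := 2) (j := 1) (k := 3) (l := 0) (Or.inl rfl) (by decide) k2 hb hs
    (by norm_num) rfl rfl rfl rfl rfl rfl
  have h3 := row_of h (r := 3) (j := 0) (k := 2) (l := 1) (Or.inr rfl) (by decide) k3 hb hs
    (by norm_num) rfl rfl rfl rfl rfl rfl
  have e : (L.C : ℝ) + L.F + (L.T + L.R2) + (L.R3 + Sy1.ka L.ll + 609) ≤ 101053536 + Sy1.kb L.ll := by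
    have : L.C + L.F + (L.T + L.R2) + (L.R3 + Sy1.ka L.ll + 609) ≤ 101053536 + Sy1.kb L.ll :=
      Nat.le_of_ble_eq_true ks
    exact_mod_cast this
  exact core1 h hb hm hf hl hC hF hT h2 h3 (by linarith)

/-- **`MixedI` from a tree and its leaves.** -/
theorem mixedI_of_tree (nodes : ∀ c : Cu, OkU1 c → ∀ k, Hs Sm1 c (dj1 k).1 → Ex Sm1 c (dj1 k).2)
    (box : ∀ c : Cu, OkU1 c → Box1 c) (N : ℕ) (L : ℕ → Leaf1) (hL : ∀ n < N, (L n).ok = true)
    (t : Tr) (ht : chk dj1 N (fun n => (L n).ats) t [] none = true) : Pool.Agent.Helper44.TS.MixedI :=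
  mixedI_of_cu fun c h => tree_ok (nodes c h) (fun n hn hs => leaf1_ok (hL n hn) h (box c h) hs) t []
    ht trivial

end Pool.Agent.Helper58.Eng
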