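import Pool.Agent.Helper62.NE.Price
import Pool.Agent.Helper56.NE.ClassCu
import Pool.Agent.Helper95.TS.BoxB

/-!
# Price tables of a system of relations on slots

`sl : ℕ → ℝ` the slots, `S.fr k` the function relations `lo ≤ hi`, `S.lr k` the linear relations `0 ≤ LV`
(both in the format of helper62). `fl`, `ll` the relations used in a leaf with their packed tables and
multipliers. `S.tab fl ll s` is the price table of the slot `s`, `S.tl fl ll s` its list of 61 natural numbers.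
-/

set_option autoImplicit false

namespace Pool.Agent.Helper58.Eng

open Pool.Agent.Helper62.NE Pool.Agent.Helper95.TS Pool.Agent.Helper53.NE

/-! ### interpolation -/

theorem interp_const (a x : ℝ) : interp (fun _ => a) x = a := by
  unfold interp
  ring

theorem interp_add (f g : ℤ → ℝ) (x : ℝ) :
    interp (fun n => f n + g n) x = interp f x + interp g x := by
  unfold interp
  ring

theorem interp_sub (f g : ℤ → ℝ) (x : ℝ) :
    interp (fun n => f n - g n) x = interp f x - interp g x := by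
  unfold interp
  ring

theorem interp_lin (a x : ℝ) : interp (fun n => a * n) x = a * x := by
  unfold interp
  push_cast
  ring

theorem interp_int (f : ℤ → ℝ) (n : ℤ) : interp f n = f n := by
  unfold interp
  rw [Int.floor_intCast]
  ring

theorem interp_le {f g : ℤ → ℝ} {a b : ℤ} (h : ∀ n, a ≤ n → n ≤ b → f n ≤ g n) {x : ℝ}
    (h1 : (a : ℝ) ≤ x) (h2 : x ≤ b) : interp f x ≤ interp g x := by
  have k1 : a ≤ ⌊x⌋ := Int.le_floor.2 h1
  have f0 := Int.floor_le x
  have f1 := Int.lt_floor_add_one x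
  have k2 : ⌊x⌋ ≤ b := by exact_mod_cast f0.trans h2
  have e := h _ k1 k2
  unfold interp
  rcases lt_or_eq_of_le k2 with k | k
  · have e2 := h (⌊x⌋ + 1) (by omega) (by omega)
    have p1 := mul_nonneg (sub_nonneg.2 f0) (sub_nonneg.2 e2)
    have p2 := mul_nonneg (sub_nonneg.2 f1.le) (sub_nonneg.2 e)
    linarith
  · have hb : (⌊x⌋ : ℝ) = b := by exact_mod_cast k
    have z : x - ⌊x⌋ = 0 := by linarith
    rw [z, zero_mul, zero_mul, add_zero, add_zero]
    exact e

theorem interp_mono {f : ℤ → ℝ} (h : Monotone f) {x y : ℝ} (hxy : x ≤ y) :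
    interp f x ≤ interp f y := by
  have hf := Int.floor_le_floor hxy
  have x0 := Int.floor_le x
  have x1 := Int.lt_floor_add_one x
  have y0 := Int.floor_le y
  have y1 := Int.lt_floor_add_one y
  rcases hf.eq_or_lt with e | e
  · unfold interp
    rw [e]
    have k := h (by omega : ⌊y⌋ ≤ ⌊y⌋ + 1)
    have := mul_nonneg (sub_nonneg.2 hxy) (sub_nonneg.2 k)
    linarith
  · have h1 : interp f x ≤ f (⌊x⌋ + 1) := by
      have k := h (by omega : ⌊x⌋ ≤ ⌊x⌋ + 1)
      have := mul_nonneg (sub_nonneg.2 x1.le) (sub_nonneg.2 k)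
      unfold interp
      linarith
    have h2 : f ⌊y⌋ ≤ interp f y := by
      have k := h (by omega : ⌊y⌋ ≤ ⌊y⌋ + 1)
      have := mul_nonneg (sub_nonneg.2 y0) (sub_nonneg.2 k)
      unfold interp
      linarith
    exact h1.trans ((h (by omega)).trans h2)

/-! ### tables -/

theorem mono_aux (p : ℕ) : ∀ n, Nat.rec (motive := fun _ => Bool) true
    (fun n ih => Nat.ble (lk p n) (lk p (Nat.succ n)) && ih) n = true →
    ∀ i, i < n → lk p i ≤ lk p (i + 1)
  | 0, _, i, hi => absurd hi (Nat.not_lt_zero i)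
  | n + 1, h, i, hi => by
    have h' : (Nat.ble (lk p n) (lk p (Nat.succ n)) &&
      (Nat.rec (motive := fun _ => Bool) true
        (fun n ih => Nat.ble (lk p n) (lk p (Nat.succ n)) && ih) n)) = true := h
    rw [Bool.and_eq_true] at h'
    rcases Nat.lt_succ_iff_lt_or_eq.1 hi with k | rfl
    · exact mono_aux p n h'.2 i k
    · exact Nat.le_of_ble_eq_true h'.1

theorem Pt_mono {p : ℕ} (h : mono p = true) : Monotone (Pt p) := by
  have k := mono_aux p 60 h
  have k2 : Monotone fun i => lk p (min 60 i) := by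
    refine monotone_nat_of_le_succ fun i => ?_
    rcases lt_or_ge i 60 with hi | hi
    · have := k i hi
      rw [min_eq_right hi.le, min_eq_right (by omega : i + 1 ≤ 60)]
      exact this
    · rw [min_eq_left hi, min_eq_left (by omega : 60 ≤ i + 1)]
  intro a b hab
  have : (a + 20).toNat ≤ (b + 20).toNat := by omega
  exact Nat.cast_le.2 (k2 this)

theorem ix_eq (C i : ℕ) : ∀ n : ℤ, i = (n + 20).toNat → -20 ≤ n → n ≤ 40 →
    ix C i = min 60 (cz C n + 20).toNat := by
  intro n hi h1 h2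
  match C with
  | 0 =>
    show i = min 60 (cz 0 n + 20).toNat
    rw [show cz 0 n = n from rfl]
    omega
  | 1 =>
    show 40 = min 60 (cz 1 n + 20).toNat
    rw [show cz 1 n = 20 from rfl]
    rfl
  | C + 2 =>
    show (C + 2) - ((C + 2) - 60) - (i - ((C + 2) - 60)) = min 60 (cz (C + 2) n + 20).toNat
    have e : cz (C + 2) n = ((C + 2 : ℕ) : ℤ) - 40 - n := by
      unfold cz
      rw [if_neg (by omega), if_neg (by omega)]
    rw [e]
    push_cast
    omega

/-- the table with a code is the table at the coded value -/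
theorem interp_code (p C : ℕ) (x : ℝ) : interp (fun n => Pt p (cz C n)) x = interp (Pt p) (cv C x) := by
  by_cases h0 : C = 0
  · subst h0
    rfl
  · by_cases h1 : C = 1
    · subst h1
      rw [show cv 1 x = ((20 : ℤ) : ℝ) by unfold cv; norm_num, interp_int]
      exact interp_const _ _
    · have e : ∀ n, cz C n = ((C : ℤ) - 40) - n := by
        intro n
        unfold cz
        rw [if_neg h0, if_neg h1]
      have e2 : cv C x = (((C : ℤ) - 40 : ℤ) : ℝ) - x := by
        unfold cv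
        rw [if_neg h0, if_neg h1]
        push_cast
        ring
      rw [e2, Pool.Agent.Helper56.NE.interp_rev]
      simp only [e]

/-! ### systems -/

/-- a system of relations on slots -/
structure Sys where
  fr : ℕ → FR
  lr : ℕ → List (ℕ × ℕ × ℕ) × ℕ × ℕ

/-- the positive contributions to a slot: codes and tables -/
def Sys.cpos (S : Sys) (s : ℕ) (fl : List (ℕ × ℕ)) : List (ℕ × ℕ) :=
  List.rec (motive := fun _ => List (ℕ × ℕ)) []
    (fun t _ ih => bif Nat.beq (S.fr t.1).hs s then ((S.fr t.1).hc, t.2) :: ih else ih) fl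

/-- the negative contributions to a slot -/
def Sys.cneg (S : Sys) (s : ℕ) (fl : List (ℕ × ℕ)) : List (ℕ × ℕ) :=
  List.rec (motive := fun _ => List (ℕ × ℕ)) []
    (fun t _ ih => bif Nat.beq (S.fr t.1).ls s then ((S.fr t.1).lc, t.2) :: ih else ih) fl

/-- the positive slope of a slot -/
def Sys.sa (S : Sys) (s : ℕ) (ll : List (ℕ × ℕ)) : ℕ :=
  List.rec (motive := fun _ => ℕ) 0 (fun t _ ih => Nat.add (Nat.mul t.2 (ca s (S.lr t.1).1)) ih) ll

/-- the negative slope of a slot -/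
def Sys.sb (S : Sys) (s : ℕ) (ll : List (ℕ × ℕ)) : ℕ :=
  List.rec (motive := fun _ => ℕ) 0 (fun t _ ih => Nat.add (Nat.mul t.2 (cb s (S.lr t.1).1)) ih) ll

/-- the positive constants -/
def Sys.ka (S : Sys) (ll : List (ℕ × ℕ)) : ℕ :=
  List.rec (motive := fun _ => ℕ) 0 (fun t _ ih => Nat.add (Nat.mul t.2 (S.lr t.1).2.1) ih) ll

/-- the negative constants -/
def Sys.kb (S : Sys) (ll : List (ℕ × ℕ)) : ℕ :=
  List.rec (motive := fun _ => ℕ) 0 (fun t _ ih => Nat.add (Nat.mul t.2 (S.lr t.1).2.2) ih) ll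

/-- the list of the 61 values of a slot -/
def Sys.tl (S : Sys) (fl ll : List (ℕ × ℕ)) (s : ℕ) : List ℕ :=
  Nat.rec (motive := fun _ => List ℕ) []
    (fun n ih => ev (S.sa s ll) (S.sb s ll) (S.cpos s fl) (S.cneg s fl) (Nat.sub 60 n) :: ih) 61

/-- **the price on the slot `s`** -/
noncomputable def Sys.tab (S : Sys) (fl ll : List (ℕ × ℕ)) (s : ℕ) (n : ℤ) : ℝ :=
  ((S.cpos s fl).map fun t => Pt t.2 (cz t.1 n)).sum - ((S.cneg s fl).map fun t => Pt t.2 (cz t.1 n)).sum
    + ((S.sa s ll : ℝ) - S.sb s ll) * n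

/-- the lower side of a function relation -/
noncomputable def Sys.loV (S : Sys) (sl : ℕ → ℝ) (k : ℕ) : ℝ := cv (S.fr k).lc (sl (S.fr k).ls)

/-- the upper side of a function relation -/
noncomputable def Sys.hiV (S : Sys) (sl : ℕ → ℝ) (k : ℕ) : ℝ := cv (S.fr k).hc (sl (S.fr k).hs)

/-- the value of a linear relation -/
noncomputable def Sys.LV (S : Sys) (sl : ℕ → ℝ) (k : ℕ) : ℝ :=
  ((S.lr k).1.map fun t => ((t.2.1 : ℝ) - t.2.2) * sl t.1).sum + (((S.lr k).2.1 : ℝ) - (S.lr k).2.2)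

theorem interp_codes (l : List (ℕ × ℕ)) (x : ℝ) :
    interp (fun n => (l.map fun t => Pt t.2 (cz t.1 n)).sum) x =
      (l.map fun t => interp (Pt t.2) (cv t.1 x)).sum := by
  induction l with
  | nil => exact interp_const 0 x
  | cons t l ih =>
    simp only [List.map_cons, List.sum_cons]
    rw [interp_add, ih, interp_code]

theorem sum_pick {N a : ℕ} (ha : a < N) (g : ℕ → ℝ) :
    ∑ s ∈ Finset.range N, (bif Nat.beq a s then g s else 0) = g a := by
  rw [Finset.sum_eq_single a]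
  · rw [show Nat.beq a a = true from Nat.beq_refl a, cond_true]
  · intro b _ hb
    have e : Nat.beq a b = false := by
      cases h : Nat.beq a b with
      | false => rfl
      | true => exact absurd (Nat.eq_of_beq_eq_true h) hb.symm
    rw [e, cond_false]
  · intro h
    exact absurd (Finset.mem_range.2 ha) h

section

variable (S : Sys)

theorem Sys.sum_cpos (sl : ℕ → ℝ) (N : ℕ) : ∀ fl : List (ℕ × ℕ), (∀ t ∈ fl, (S.fr t.1).hs < N) →
    ∑ s ∈ Finset.range N, ((S.cpos s fl).map fun t => interp (Pt t.2) (cv t.1 (sl s))).sum =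
      (fl.map fun t => interp (Pt t.2) (S.hiV sl t.1)).sum
  | [], _ => by
    simp [Sys.cpos]
  | t :: fl, h => by
    have ih := Sys.sum_cpos sl N fl fun t ht => h t (List.mem_cons_of_mem _ ht)
    have e : ∀ s, ((S.cpos s (t :: fl)).map fun t => interp (Pt t.2) (cv t.1 (sl s))).sum =
        (bif Nat.beq (S.fr t.1).hs s then interp (Pt t.2) (cv (S.fr t.1).hc (sl s)) else 0) +
          ((S.cpos s fl).map fun t => interp (Pt t.2) (cv t.1 (sl s))).sum := by
      intro s
      have e1 : S.cpos s (t :: fl) =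
        bif Nat.beq (S.fr t.1).hs s then ((S.fr t.1).hc, t.2) :: S.cpos s fl else S.cpos s fl := rfl
      rw [e1]
      cases Nat.beq (S.fr t.1).hs s
      · rw [cond_false, cond_false, zero_add]
      · rw [cond_true, cond_true, List.map_cons, List.sum_cons]
    rw [Finset.sum_congr rfl fun s _ => e s, Finset.sum_add_distrib, ih,
      sum_pick (h t List.mem_cons_self) fun s => interp (Pt t.2) (cv (S.fr t.1).hc (sl s)),
      List.map_cons, List.sum_cons]
    rfl

theorem Sys.sum_cneg (sl : ℕ → ℝ) (N : ℕ) : ∀ fl : List (ℕ × ℕ), (∀ t ∈ fl, (S.fr t.1).ls < N) →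
    ∑ s ∈ Finset.range N, ((S.cneg s fl).map fun t => interp (Pt t.2) (cv t.1 (sl s))).sum =
      (fl.map fun t => interp (Pt t.2) (S.loV sl t.1)).sum
  | [], _ => by
    simp [Sys.cneg]
  | t :: fl, h => by
    have ih := Sys.sum_cneg sl N fl fun t ht => h t (List.mem_cons_of_mem _ ht)
    have e : ∀ s, ((S.cneg s (t :: fl)).map fun t => interp (Pt t.2) (cv t.1 (sl s))).sum =
        (bif Nat.beq (S.fr t.1).ls s then interp (Pt t.2) (cv (S.fr t.1).lc (sl s)) else 0) +
          ((S.cneg s fl).map fun t => interp (Pt t.2) (cv t.1 (sl s))).sum := by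
      intro s
      have e1 : S.cneg s (t :: fl) =
        bif Nat.beq (S.fr t.1).ls s then ((S.fr t.1).lc, t.2) :: S.cneg s fl else S.cneg s fl := rfl
      rw [e1]
      cases Nat.beq (S.fr t.1).ls s
      · rw [cond_false, cond_false, zero_add]
      · rw [cond_true, cond_true, List.map_cons, List.sum_cons]
    rw [Finset.sum_congr rfl fun s _ => e s, Finset.sum_add_distrib, ih,
      sum_pick (h t List.mem_cons_self) fun s => interp (Pt t.2) (cv (S.fr t.1).lc (sl s)),
      List.map_cons, List.sum_cons]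
    rfl

theorem sum_ca (sl : ℕ → ℝ) (N : ℕ) : ∀ l : List (ℕ × ℕ × ℕ), (∀ t ∈ l, t.1 < N) →
    ∑ s ∈ Finset.range N, ((ca s l : ℝ) - cb s l) * sl s =
      (l.map fun t => ((t.2.1 : ℝ) - t.2.2) * sl t.1).sum
  | [], _ => by
    simp [ca, cb]
  | t :: l, h => by
    have ih := sum_ca sl N l fun t ht => h t (List.mem_cons_of_mem _ ht)
    have e : ∀ s, ((ca s (t :: l) : ℝ) - cb s (t :: l)) * sl s =
        (bif Nat.beq t.1 s then ((t.2.1 : ℝ) - t.2.2) * sl s else 0) +
          ((ca s l : ℝ) - cb s l) * sl s := by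
      intro s
      have e1 : ca s (t :: l) = bif Nat.beq t.1 s then Nat.add t.2.1 (ca s l) else ca s l := rfl
      have e2 : cb s (t :: l) = bif Nat.beq t.1 s then Nat.add t.2.2 (cb s l) else cb s l := rfl
      rw [e1, e2]
      cases Nat.beq t.1 s
      · rw [cond_false, cond_false, cond_false, zero_add]
      · rw [cond_true, cond_true, cond_true, Nat.add_eq, Nat.add_eq]
        push_cast
        ring
    rw [Finset.sum_congr rfl fun s _ => e s, Finset.sum_add_distrib, ih,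
      sum_pick (h t List.mem_cons_self) fun s => ((t.2.1 : ℝ) - t.2.2) * sl s,
      List.map_cons, List.sum_cons]

theorem Sys.sum_lin (sl : ℕ → ℝ) (N : ℕ) : ∀ ll : List (ℕ × ℕ),
    (∀ t ∈ ll, ∀ u ∈ (S.lr t.1).1, u.1 < N) →
    ∑ s ∈ Finset.range N, ((S.sa s ll : ℝ) - S.sb s ll) * sl s + ((S.ka ll : ℝ) - S.kb ll) =
      (ll.map fun t => (t.2 : ℝ) * S.LV sl t.1).sum
  | [], _ => by
    simp [Sys.sa, Sys.sb, Sys.ka, Sys.kb]
  | t :: ll, h => by
    have ih := Sys.sum_lin sl N ll fun t ht => h t (List.mem_cons_of_mem _ ht)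
    have i2 := sum_ca sl N _ (h t List.mem_cons_self)
    have e : ∀ s, ((S.sa s (t :: ll) : ℝ) - S.sb s (t :: ll)) * sl s =
        (t.2 : ℝ) * (((ca s (S.lr t.1).1 : ℝ) - cb s (S.lr t.1).1) * sl s) +
          ((S.sa s ll : ℝ) - S.sb s ll) * sl s := by
      intro s
      have e1 : S.sa s (t :: ll) = t.2 * (ca s (S.lr t.1).1) + S.sa s ll := rfl
      have e2 : S.sb s (t :: ll) = t.2 * (cb s (S.lr t.1).1) + S.sb s ll := rfl
      rw [e1, e2]
      push_cast
      ring
    have e3 : S.ka (t :: ll) = t.2 * (S.lr t.1).2.1 + S.ka ll := rfl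
    have e4 : S.kb (t :: ll) = t.2 * (S.lr t.1).2.2 + S.kb ll := rfl
    rw [Finset.sum_congr rfl fun s _ => e s, Finset.sum_add_distrib, ← Finset.mul_sum, i2,
      List.map_cons, List.sum_cons, ← ih, e3, e4]
    unfold Sys.LV
    push_cast
    ring

/-- **The sum of the prices of the slots.** -/
theorem Sys.sum_tab (sl : ℕ → ℝ) (N : ℕ) (fl ll : List (ℕ × ℕ))
    (h1 : ∀ t ∈ fl, (S.fr t.1).hs < N ∧ (S.fr t.1).ls < N)
    (h2 : ∀ t ∈ ll, ∀ u ∈ (S.lr t.1).1, u.1 < N) :
    ∑ s ∈ Finset.range N, interp (S.tab fl ll s) (sl s) + ((S.ka ll : ℝ) - S.kb ll) =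
      (fl.map fun t => interp (Pt t.2) (S.hiV sl t.1)).sum
        - (fl.map fun t => interp (Pt t.2) (S.loV sl t.1)).sum
        + (ll.map fun t => (t.2 : ℝ) * S.LV sl t.1).sum := by
  have e : ∀ s, interp (S.tab fl ll s) (sl s) =
      ((S.cpos s fl).map fun t => interp (Pt t.2) (cv t.1 (sl s))).sum
        - ((S.cneg s fl).map fun t => interp (Pt t.2) (cv t.1 (sl s))).sum
        + ((S.sa s ll : ℝ) - S.sb s ll) * sl s := by
    intro s
    unfold Sys.tab
    rw [interp_add (fun n => ((S.cpos s fl).map fun t => Pt t.2 (cz t.1 n)).sum -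
        ((S.cneg s fl).map fun t => Pt t.2 (cz t.1 n)).sum)
      (fun n => ((S.sa s ll : ℝ) - S.sb s ll) * n), interp_sub, interp_lin, interp_codes, interp_codes]
  rw [Finset.sum_congr rfl fun s _ => e s, Finset.sum_add_distrib, Finset.sum_sub_distrib,
    S.sum_cpos sl N fl fun t ht => (h1 t ht).1, S.sum_cneg sl N fl fun t ht => (h1 t ht).2,
    ← S.sum_lin sl N ll h2]
  ring

/-- the prices are nonnegative when the relations hold -/
theorem Sys.sum_nonneg (sl : ℕ → ℝ) (N : ℕ) (fl ll : List (ℕ × ℕ))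
    (h1 : ∀ t ∈ fl, (S.fr t.1).hs < N ∧ (S.fr t.1).ls < N)
    (h2 : ∀ t ∈ ll, ∀ u ∈ (S.lr t.1).1, u.1 < N) (hm : ∀ t ∈ fl, mono t.2 = true)
    (hf : ∀ t ∈ fl, S.loV sl t.1 ≤ S.hiV sl t.1) (hl : ∀ t ∈ ll, 0 ≤ S.LV sl t.1) :
    0 ≤ ∑ s ∈ Finset.range N, interp (S.tab fl ll s) (sl s) + ((S.ka ll : ℝ) - S.kb ll) := by
  rw [S.sum_tab sl N fl ll h1 h2]
  have k1 : (fl.map fun t => interp (Pt t.2) (S.loV sl t.1)).sum ≤
      (fl.map fun t => interp (Pt t.2) (S.hiV sl t.1)).sum :=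
    List.sum_le_sum fun t ht => interp_mono (Pt_mono (hm t ht)) (hf t ht)
  have k2 : 0 ≤ (ll.map fun t => (t.2 : ℝ) * S.LV sl t.1).sum := by
    refine List.sum_nonneg fun x hx => ?_
    obtain ⟨t, ht, rfl⟩ := List.mem_map.1 hx
    exact mul_nonneg (Nat.cast_nonneg _) (hl t ht)
  linarith

/-! ### evaluation -/

theorem sc_eq (n : ℤ) (h1 : -20 ≤ n) (h2 : n ≤ 40) : ∀ l : List (ℕ × ℕ),
    (sc l (n + 20).toNat : ℝ) = (l.map fun t => Pt t.2 (cz t.1 n)).sum
  | [] => by
    simp [sc]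
  | t :: l => by
    have ih := sc_eq n h1 h2 l
    have e : sc (t :: l) (n + 20).toNat = lk t.2 (ix t.1 (n + 20).toNat) + sc l (n + 20).toNat := rfl
    rw [e, List.map_cons, List.sum_cons, ← ih, ix_eq t.1 _ n rfl h1 h2]
    push_cast
    rfl

theorem nth_list (g : ℕ → ℕ) : ∀ m j, m ≤ 61 → j < m →
    nth 0 (Nat.rec (motive := fun _ => List ℕ) [] (fun n ih => g (Nat.sub 60 n) :: ih) m) j =
      g (61 - m + j)
  | 0, _, _, h => absurd h (Nat.not_lt_zero _)
  | m + 1, 0, h, _ => by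
    show g (60 - m) = g (61 - (m + 1) + 0)
    congr 1
    omega
  | m + 1, j + 1, h, hj => by
    show nth 0 (Nat.rec (motive := fun _ => List ℕ) [] (fun n ih => g (Nat.sub 60 n) :: ih) m) j =
      g (61 - (m + 1) + (j + 1))
    rw [nth_list g m j (by omega) (by omega)]
    congr 1
    omega

theorem Sys.nth_tl (fl ll : List (ℕ × ℕ)) (s i : ℕ) (hi : i < 61) :
    nth 0 (S.tl fl ll s) i = ev (S.sa s ll) (S.sb s ll) (S.cpos s fl) (S.cneg s fl) i := by
  have := nth_list (ev (S.sa s ll) (S.sb s ll) (S.cpos s fl) (S.cneg s fl)) 61 i le_rfl hi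
  rw [show 61 - 61 + i = i by omega] at this
  exact this

/-- the list is not below the price -/
theorem Sys.tab_le (fl ll : List (ℕ × ℕ)) (s : ℕ) {n : ℤ} (h1 : -20 ≤ n) (h2 : n ≤ 40) :
    S.tab fl ll s n ≤ ltab (S.tl fl ll s) n := by
  unfold ltab
  rw [S.nth_tl fl ll s _ (by omega)]
  unfold Sys.tab
  rw [← sc_eq n h1 h2, ← sc_eq n h1 h2]
  have hn : ((n + 20).toNat : ℝ) = (n : ℝ) + 20 := by
    have : (((n + 20).toNat : ℤ) : ℝ) = ((n + 20 : ℤ) : ℝ) := by
      rw [Int.toNat_of_nonneg (by omega)]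
    rw [← Int.cast_natCast, this]
    push_cast
    ring
  set i := (n + 20).toNat with hi
  set A := S.sa s ll
  set B := S.sb s ll
  set p := S.cpos s fl
  set q := S.cneg s fl
  have e : ((4194304 + sc p i + (A * i + 20 * B) : ℕ) : ℝ) - ((sc q i + (B * i + 20 * A) : ℕ) : ℝ) ≤
      (ev A B p q i : ℝ) := by
    have : 4194304 + sc p i + (A * i + 20 * B) ≤ ev A B p q i + (sc q i + (B * i + 20 * A)) :=
      Nat.sub_le_iff_le_add.1 le_rfl
    have h' : ((4194304 + sc p i + (A * i + 20 * B) : ℕ) : ℝ) ≤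
      ((ev A B p q i + (sc q i + (B * i + 20 * A)) : ℕ) : ℝ) := Nat.cast_le.2 this
    rw [Nat.cast_add (ev A B p q i)] at h'
    linarith
  push_cast at e
  rw [hn] at e
  linarith

theorem Sys.interp_tab_le (fl ll : List (ℕ × ℕ)) (s : ℕ) {x : ℝ} (h1 : -20 ≤ x) (h2 : x ≤ 40) :
    interp (S.tab fl ll s) x ≤ interp (ltab (S.tl fl ll s)) x :=
  interp_le (a := -20) (b := 40) (fun _ h1 h2 => S.tab_le fl ll s h1 h2) (by push_cast; exact h1)
    (by push_cast; exact h2)

/-- **The prices of the lists.** -/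
theorem Sys.price (sl : ℕ → ℝ) (N : ℕ) (fl ll : List (ℕ × ℕ))
    (h1 : ∀ t ∈ fl, (S.fr t.1).hs < N ∧ (S.fr t.1).ls < N)
    (h2 : ∀ t ∈ ll, ∀ u ∈ (S.lr t.1).1, u.1 < N) (hm : ∀ t ∈ fl, mono t.2 = true)
    (hf : ∀ t ∈ fl, S.loV sl t.1 ≤ S.hiV sl t.1) (hl : ∀ t ∈ ll, 0 ≤ S.LV sl t.1)
    (hs : ∀ s < N, -20 ≤ sl s ∧ sl s ≤ 40) :
    (S.kb ll : ℝ) - S.ka ll ≤ ∑ s ∈ Finset.range N, interp (ltab (S.tl fl ll s)) (sl s) := by
  have k1 := S.sum_nonneg sl N fl ll h1 h2 hm hf hl
  have k2 : ∑ s ∈ Finset.range N, interp (S.tab fl ll s) (sl s) ≤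
      ∑ s ∈ Finset.range N, interp (ltab (S.tl fl ll s)) (sl s) :=
    Finset.sum_le_sum fun s h => S.interp_tab_le fl ll s (hs s (Finset.mem_range.1 h)).1
      (hs s (Finset.mem_range.1 h)).2
  linarith

end

end Pool.Agent.Helper58.Eng
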