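import Pool.Agent.Helper58.TS.Eng.Lv0
import Pool.Agent.Helper58.TS.Eng.Lv1
import Pool.Agent.Helper58.TS.Eng.Lv2
import Pool.Agent.Helper58.TS.Eng.Lv3
import Pool.Agent.Helper58.TS.Eng.Lv4
import Pool.Agent.Helper58.TS.Eng.Lv5
import Pool.Agent.Helper58.TS.Eng.Lv6

/-!
# `MixedI`: the tree
-/

set_option autoImplicit false
set_option maxRecDepth 1000000

namespace Pool.Agent.Helper58.Eng

open Pool.Agent.Helper53.NE Pool.Agent.Helper62.NE

/-- the leaves -/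
def lvs (n : ℕ) : Leaf1 := nth lf0 [lf0, lf1, lf2, lf3, lf4, lf5, lf6, lf7, lf8, lf9, lf10, lf11, lf12, lf13, lf14, lf15, lf16, lf17, lf18, lf19, lf20, lf21, lf22, lf23, lf24, lf25, lf26, lf27, lf28, lf29, lf30, lf31, lf32, lf33, lf34, lf35, lf36, lf37, lf38, lf39, lf40, lf41, lf42, lf43, lf44, lf45, lf46, lf47, lf48, lf49, lf50, lf51, lf52, lf53, lf54, lf55, lf56, lf57, lf58, lf59, lf60, lf61, lf62, lf63, lf64, lf65, lf66, lf67, lf68, lf69] n

theorem lvs_ok : ∀ n < 70, (lvs n).ok = true := by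
  intro n hn
  match n, hn with
  | 0, _ => exact lf0_ok
  | 1, _ => exact lf1_ok
  | 2, _ => exact lf2_ok
  | 3, _ => exact lf3_ok
  | 4, _ => exact lf4_ok
  | 5, _ => exact lf5_ok
  | 6, _ => exact lf6_ok
  | 7, _ => exact lf7_ok
  | 8, _ => exact lf8_ok
  | 9, _ => exact lf9_ok
  | 10, _ => exact lf10_ok
  | 11, _ => exact lf11_ok
  | 12, _ => exact lf12_ok
  | 13, _ => exact lf13_ok
  | 14, _ => exact lf14_ok
  | 15, _ => exact lf15_ok
  | 16, _ => exact lf16_ok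
  | 17, _ => exact lf17_ok
  | 18, _ => exact lf18_ok
  | 19, _ => exact lf19_ok
  | 20, _ => exact lf20_ok
  | 21, _ => exact lf21_ok
  | 22, _ => exact lf22_ok
  | 23, _ => exact lf23_ok
  | 24, _ => exact lf24_ok
  | 25, _ => exact lf25_ok
  | 26, _ => exact lf26_ok
  | 27, _ => exact lf27_ok
  | 28, _ => exact lf28_ok
  | 29, _ => exact lf29_ok
  | 30, _ => exact lf30_ok
  | 31, _ => exact lf31_ok
  | 32, _ => exact lf32_ok
  | 33, _ => exact lf33_ok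
  | 34, _ => exact lf34_ok
  | 35, _ => exact lf35_ok
  | 36, _ => exact lf36_ok
  | 37, _ => exact lf37_ok
  | 38, _ => exact lf38_ok
  | 39, _ => exact lf39_ok
  | 40, _ => exact lf40_ok
  | 41, _ => exact lf41_ok
  | 42, _ => exact lf42_ok
  | 43, _ => exact lf43_ok
  | 44, _ => exact lf44_ok
  | 45, _ => exact lf45_ok
  | 46, _ => exact lf46_ok
  | 47, _ => exact lf47_ok
  | 48, _ => exact lf48_ok
  | 49, _ => exact lf49_ok
  | 50, _ => exact lf50_ok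
  | 51, _ => exact lf51_ok
  | 52, _ => exact lf52_ok
  | 53, _ => exact lf53_ok
  | 54, _ => exact lf54_ok
  | 55, _ => exact lf55_ok
  | 56, _ => exact lf56_ok
  | 57, _ => exact lf57_ok
  | 58, _ => exact lf58_ok
  | 59, _ => exact lf59_ok
  | 60, _ => exact lf60_ok
  | 61, _ => exact lf61_ok
  | 62, _ => exact lf62_ok
  | 63, _ => exact lf63_ok
  | 64, _ => exact lf64_ok
  | 65, _ => exact lf65_ok
  | 66, _ => exact lf66_ok
  | 67, _ => exact lf67_ok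
  | 68, _ => exact lf68_ok
  | 69, _ => exact lf69_ok
  | n + 70, h => exact absurd h (by omega)

/-- the tree -/
def tr1 : Tr :=
  .dis 10 (.alt (.dis 9 (.alt (.dis 0 (.alt (.dis 7 (.alt (.dis 5 (.alt (.leaf 0)
    (.alt (.dis 2 (.alt (.dis 8 (.alt (.dis 3 (.alt (.leaf 1)
    (.alt (.leaf 2) .nil)))
    (.alt (.leaf 3) .nil)))
    (.alt (.leaf 4) .nil))) .nil)))
    (.alt (.leaf 5)
    (.alt (.leaf 6) .nil))))
    (.alt (.dis 5 (.alt (.dis 7 (.alt (.thr 33 28 (.dis 4 (.alt (.dis 2 (.alt (.dis 8 (.alt (.dis 1 (.alt (.leaf 7)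
    (.alt (.leaf 8) .nil)))
    (.alt (.dis 1 (.alt (.leaf 9)
    (.alt (.leaf 10) .nil))) .nil)))
    (.alt (.dis 8 (.alt (.dis 6 (.alt (.leaf 11)
    (.alt (.leaf 12) .nil)))
    (.alt (.leaf 13) .nil))) .nil)))
    (.alt (.dis 8 (.alt (.leaf 14)
    (.alt (.leaf 15) .nil))) .nil)))
    (.dis 4 (.alt (.dis 1 (.alt (.dis 8 (.alt (.dis 2 (.alt (.leaf 16)
    (.alt (.leaf 17) .nil)))
    (.alt (.dis 2 (.alt (.leaf 18)
    (.alt (.leaf 19) .nil))) .nil)))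
    (.alt (.dis 3 (.alt (.leaf 20)
    (.alt (.leaf 21) .nil))) .nil)))
    (.alt (.leaf 22) .nil))))
    (.alt (.leaf 23)
    (.alt (.dis 1 (.alt (.dis 4 (.alt (.dis 8 (.alt (.leaf 24)
    (.alt (.leaf 25) .nil)))
    (.alt (.leaf 26) .nil)))
    (.alt (.leaf 27) .nil))) .nil))))
    (.alt (.leaf 28) .nil)))
    (.alt (.dis 5 (.alt (.leaf 29)
    (.alt (.leaf 30) .nil)))
    (.alt (.dis 7 (.alt (.dis 5 (.alt (.thr 24 39 (.dis 4 (.alt (.leaf 31)
    (.alt (.leaf 32) .nil)))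
    (.dis 4 (.alt (.dis 8 (.alt (.leaf 33)
    (.alt (.leaf 34) .nil)))
    (.alt (.leaf 35) .nil))))
    (.alt (.leaf 36) .nil)))
    (.alt (.leaf 37)
    (.alt (.dis 5 (.alt (.thr 33 26 (.dis 3 (.alt (.dis 4 (.alt (.dis 8 (.alt (.leaf 38)
    (.alt (.leaf 39) .nil)))
    (.alt (.leaf 40) .nil)))
    (.alt (.leaf 41) .nil)))
    (.leaf 42))
    (.alt (.leaf 43) .nil))) .nil)))) .nil)))))
    (.alt (.dis 0 (.alt (.dis 7 (.alt (.dis 5 (.alt (.leaf 44)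
    (.alt (.leaf 45) .nil)))
    (.alt (.leaf 46)
    (.alt (.leaf 47) .nil))))
    (.alt (.dis 5 (.alt (.dis 7 (.alt (.thr 33 28 (.dis 2 (.alt (.dis 4 (.alt (.dis 8 (.alt (.dis 1 (.alt (.leaf 48)
    (.alt (.leaf 49) .nil)))
    (.alt (.dis 1 (.alt (.leaf 50)
    (.alt (.leaf 51) .nil))) .nil)))
    (.alt (.leaf 52) .nil)))
    (.alt (.leaf 53) .nil)))
    (.dis 3 (.alt (.dis 1 (.alt (.dis 4 (.alt (.dis 8 (.alt (.leaf 54)
    (.alt (.leaf 55) .nil)))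
    (.alt (.leaf 56) .nil)))
    (.alt (.leaf 57) .nil)))
    (.alt (.leaf 58) .nil))))
    (.alt (.leaf 59)
    (.alt (.dis 4 (.alt (.dis 2 (.alt (.dis 8 (.alt (.leaf 60)
    (.alt (.leaf 61) .nil)))
    (.alt (.leaf 62) .nil)))
    (.alt (.leaf 63) .nil))) .nil))))
    (.alt (.leaf 64) .nil)))
    (.alt (.dis 5 (.alt (.leaf 65)
    (.alt (.leaf 66) .nil)))
    (.alt (.dis 7 (.alt (.leaf 67)
    (.alt (.leaf 68)
    (.alt (.leaf 69) .nil)))) .nil))))) .nil))) .nil)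

theorem tr1_ok : chk dj1 70 (fun n => (lvs n).ats) tr1 [] none = true := by decide +kernel

end Pool.Agent.Helper58.Eng
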